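import Pool.Agent.Run7.h527.TP.Cb
import Pool.Agent.Results.MP_ca2859_nt.MultiplicativeValues

/-!
# The discriminant bound for all hyperelliptic curves with heights near aliquot sums and arithmetic derivatives

Hyperelliptic curves of genus `g ≥ 2` over a number field `K` all of whose Weierstrass points are rational: the twists by
`d ∈ K*` of `y² = X ∏ (X - x_i)`, where `x` is a point of `P^{2g-1}(K)` with `0, x_i` different. Let `f(m)` be the sum of the
proper divisors of `m`, the cototient `m - φ(m)`, the arithmetic derivative `m'` (with `p' = 1` for primes and Leibniz' rule),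
or any positive combination `a m + b h(m)` with `h = σ`, `φ` or the arithmetic derivative. Let `α > 0`, `e ≥ 1`, `0 ≤ θ` and
`κ > 4 g + 4`. If `e s + θ < τ ≤ 1` with an explicit `s < 1` (which tends to `0` for large `κ`), then for all `m ≤ N` which
have two prime factors `p ≠ q`, not dividing `m / (p q) ≥ 2`, with `p q ≥ m^τ`, but at most `N^(1 - η)` of them, the
inequality `Δ_C ≤ c M_C ^ κ` holds for ALL twists of ALL such configurations `x` with
`|H_K(x) ^ (2g) - α f(m)^e| ≤ f(m) ^ θ`; if `κ < 4 g + 4` it fails for some twist of EACH such `x`, in the same sense.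
Consequently: for every `ε > 0` there are `κ` and `θ > 0` (depending on `g`, `e`, `ε` only) such that the inequality holds for
ALL twists of ALL these configurations, for ALL `m ≤ N` but `ε N`.

Proof. Write `m = k p q`. Then `f(m) = a p q + b (p + q) + c` with integers `a ≠ 0`, `b`, `c` which depend on `k` only, and
`(a p + b) (a q + b) = a f(m) + b² - a c`. So for given `k ≤ N^(1 - τ)` every value is taken for at most `N^ε` pairs `p`, `q`
(the tool `Run7/h527/TP`), and the exceptional configurations are few by the starting theorem `RationalWeierstrassPoints`.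
For small `τ` all but `ε N` integers have two such primes, by the second moment of the number of the prime factors in
`(N^(τ / 2), N^(1 / 8))`.
-/

set_option autoImplicit false

open NumberField Height Finset LinearAlgebra.Projectivization Polynomial
open Pool.Agent.W318 (discNorm badNorm)

namespace Pool.Agent.Results.MP_ca2859_nt.AliquotSums

open Pool.Agent.N733.TG (Expanding expanding_pow)
open Pool.Agent.Results.MP_ca2859_nt.MultiplicativeValues (roots curve expo expoBelow count_of)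
open Run7.h527.TP (Bil Two good density combine aliquot cototient deriv sig comb)

/-- **Theorem.** Let `f` be of the class `Bil` and let `G` have steps `≥ a > 0` and growth at most `v^e`. Let `K` be a number
field, `g ≥ 2`, `c > 0`, `θ ≥ 0`, `τ ≤ 1`. (1) If `κ > 4 g + 4` then `expo g κ < 2 g`, and if `e * expo g κ / (2 g) + θ < τ`
then for all large `N`, for all `m ≤ N` with `Two τ m` but at most `N^(1 - η)`, the inequality `Δ_C ≤ c M_C ^ κ` holds for ALL
twists `d` of ALL configurations `P` with different roots and `|H_K(P) ^ (2 g) - G (f m)| ≤ f(m) ^ θ`. (2) If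
`0 ≤ κ < 4 g + 4` then `expoBelow g κ < 2 g`, and if `e * expoBelow g κ / (2 g) + θ < τ` then for all large `N`, for all
`m ≤ N` with `Two τ m` but at most `N^(1 - η)`, for EACH such configuration the inequality fails for some twist. (3) For
`ε > 0` there are `κ` and `θ > 0` such that for all such `f`, `G`, `K` and all `c > 0` the inequality `Δ_C ≤ c M_C ^ κ` holds
for ALL twists of ALL these configurations for all `m ≤ N` but `ε N`. (4) The sum of the proper divisors, the cototient, the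
arithmetic derivative and their positive combinations with the identity are examples of `f`, and `G v = α v^e` with `α > 0`,
`e ≥ 1` is an example of `G`. -/
theorem result :
    (∀ f : ℕ → ℕ, Bil f → ∀ (G : ℕ → ℝ) (e : ℝ), Expanding G e →
      ∀ (K : Type) [Field K] [NumberField K] (g n : ℕ) (κ c θ τ : ℝ), 2 ≤ g → n + 1 = 2 * g → 0 < c → 0 ≤ θ → τ ≤ 1 →
      (4 * g + 4 < κ → expo g κ < 2 * g ∧ (e * (expo g κ / (2 * g)) + θ < τ →
        ∃ η : ℝ, 0 < η ∧ ∃ N₀ : ℕ, ∀ N : ℕ, N₀ ≤ N →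
        ({m : ℕ | 1 ≤ m ∧ m ≤ N ∧ Two τ m ∧ ¬ ∀ P : ℙ K (Fin (n + 1) → K), Function.Injective (roots P.rep) →
          |P.mulHeight ^ (2 * g) - G (f m)| ≤ (f m : ℝ) ^ θ → ∀ d : K, d ≠ 0 →
            (discNorm g (curve d P.rep) : ℝ) ≤ c * (badNorm g (curve d P.rep) : ℝ) ^ κ}.ncard : ℝ) ≤
          (N : ℝ) ^ (1 - η))) ∧
      (0 ≤ κ → κ < 4 * g + 4 →
        expoBelow g κ < 2 * g ∧ (e * (expoBelow g κ / (2 * g)) + θ < τ →
        ∃ η : ℝ, 0 < η ∧ ∃ N₀ : ℕ, ∀ N : ℕ, N₀ ≤ N →
        ({m : ℕ | 1 ≤ m ∧ m ≤ N ∧ Two τ m ∧ ¬ ∀ P : ℙ K (Fin (n + 1) → K), Function.Injective (roots P.rep) →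
          |P.mulHeight ^ (2 * g) - G (f m)| ≤ (f m : ℝ) ^ θ → ∃ d : K, d ≠ 0 ∧
            c * (badNorm g (curve d P.rep) : ℝ) ^ κ < (discNorm g (curve d P.rep) : ℝ)}.ncard : ℝ) ≤
          (N : ℝ) ^ (1 - η)))) ∧
    (∀ (g n : ℕ) (e ε : ℝ), 2 ≤ g → n + 1 = 2 * g → 1 ≤ e → 0 < ε → ∃ κ θ : ℝ, 0 < θ ∧
      ∀ f : ℕ → ℕ, Bil f → ∀ G : ℕ → ℝ, Expanding G e → ∀ (K : Type) [Field K] [NumberField K] (c : ℝ), 0 < c →
        ∃ N₀ : ℕ, ∀ N : ℕ, N₀ ≤ N →
        ({m : ℕ | 1 ≤ m ∧ m ≤ N ∧ ¬ ∀ P : ℙ K (Fin (n + 1) → K), Function.Injective (roots P.rep) →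
          |P.mulHeight ^ (2 * g) - G (f m)| ≤ (f m : ℝ) ^ θ → ∀ d : K, d ≠ 0 →
            (discNorm g (curve d P.rep) : ℝ) ≤ c * (badNorm g (curve d P.rep) : ℝ) ^ κ}.ncard : ℝ) ≤ ε * N) ∧
    (Bil aliquot ∧ Bil cototient ∧ Bil deriv ∧
      (∀ α β : ℤ, (∀ m : ℕ, 2 ≤ m → 0 < α * m + β * sig m) → Bil (comb α β sig)) ∧
      (∀ α β : ℤ, (∀ m : ℕ, 2 ≤ m → 0 < α * m + β * Nat.totient m) → Bil (comb α β Nat.totient)) ∧
      ∀ α β : ℤ, (∀ m : ℕ, 2 ≤ m → 0 < α * m + β * deriv m) → Bil (comb α β deriv)) ∧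
    ∀ α e : ℝ, 0 < α → 1 ≤ e → Expanding (fun v => α * (v : ℝ) ^ e) e := by
  have one : ∀ f : ℕ → ℕ, Bil f → ∀ (G : ℕ → ℝ) (e : ℝ), Expanding G e →
      ∀ (K : Type) [Field K] [NumberField K] (g n : ℕ) (κ c θ τ : ℝ), 2 ≤ g → n + 1 = 2 * g → 0 < c → 0 ≤ θ → τ ≤ 1 →
      (4 * g + 4 < κ → expo g κ < 2 * g ∧ (e * (expo g κ / (2 * g)) + θ < τ →
        ∃ η : ℝ, 0 < η ∧ ∃ N₀ : ℕ, ∀ N : ℕ, N₀ ≤ N →
        ({m : ℕ | 1 ≤ m ∧ m ≤ N ∧ Two τ m ∧ ¬ ∀ P : ℙ K (Fin (n + 1) → K), Function.Injective (roots P.rep) →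
          |P.mulHeight ^ (2 * g) - G (f m)| ≤ (f m : ℝ) ^ θ → ∀ d : K, d ≠ 0 →
            (discNorm g (curve d P.rep) : ℝ) ≤ c * (badNorm g (curve d P.rep) : ℝ) ^ κ}.ncard : ℝ) ≤
          (N : ℝ) ^ (1 - η))) := by
    intro f hf G e hG K _ _ g n κ c θ τ hg hn hc hθ hτ hκ
    obtain ⟨h1, h2⟩ := (RationalWeierstrassPoints.result K g n hg hn κ).1 hκ
    have hg2 : (2 : ℝ) ≤ g := by exact_mod_cast hg
    have hs : 0 ≤ expo g κ := by
      have hk : 0 < κ - 4 * g - 2 := by linarith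
      unfold expo
      refine le_min ((by linarith : (0 : ℝ) ≤ 2 * g - 1 / 2).trans (le_max_left _ _)) (le_min ?_ ?_)
      · positivity
      · have : (0 : ℝ) ≤ 2 * g - 1 := by linarith
        positivity
    refine ⟨h1, fun hle => ?_⟩
    exact good (T := ℙ K (Fin (n + 1) → K)) (fun P => Function.Injective (roots P.rep))
      (fun P => ∀ d : K, d ≠ 0 → (discNorm g (curve d P.rep) : ℝ) ≤ c * (badNorm g (curve d P.rep) : ℝ) ^ κ)
      (fun P => P.mulHeight ^ (2 * g)) hf hG (s := expo g κ / (2 * g)) (κ := θ) (by positivity) hθ hle hτ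
      (count_of hg _ (fun B => RationalWeierstrassPoints.exceptional K g n κ c B) (expo g κ)
        (fun δ hδ => h2 c δ hc hδ) (fun P hP B hB hB2 => by
          have h3 := hP.2
          push Not at h3
          exact ⟨hP.1, hB2, h3⟩))
  refine ⟨fun f hf G e hG K _ _ g n κ c θ τ hg hn hc hθ hτ => ⟨fun hκ => ?_, fun hκ0 hκ => ?_⟩,
    fun g n e ε hg hn he hε => ?_, Run7.h527.TP.examples, fun α e hα he => expanding_pow hα he⟩
  · exact one f hf G e hG K g n κ c θ τ hg hn hc hθ hτ hκ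
  · obtain ⟨h1, h2⟩ := (RationalWeierstrassPoints.result K g n hg hn κ).2 hκ0 hκ
    have hg2 : (2 : ℝ) ≤ g := by exact_mod_cast hg
    have hs : 0 ≤ expoBelow g κ := by
      unfold expoBelow
      exact (by linarith : (0 : ℝ) ≤ 2 * g - 1 / 2).trans (le_max_left _ _)
    refine ⟨h1, fun hle => ?_⟩
    exact good (T := ℙ K (Fin (n + 1) → K)) (fun P => Function.Injective (roots P.rep))
      (fun P => ∃ d : K, d ≠ 0 ∧ c * (badNorm g (curve d P.rep) : ℝ) ^ κ < (discNorm g (curve d P.rep) : ℝ))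
      (fun P => P.mulHeight ^ (2 * g)) hf hG (s := expoBelow g κ / (2 * g)) (κ := θ) (by positivity) hθ hle hτ
      (count_of hg _ (fun B => RationalWeierstrassPoints.uniform K g n κ c B) (expoBelow g κ)
        (fun δ hδ => h2 c δ hc hδ) (fun P hP B hB hB2 => by
          have h3 := hP.2
          push Not at h3
          exact ⟨hP.1, hB2, h3⟩))
  · obtain ⟨τ, hτ0, hτ1, hden⟩ := density (ε / 2) (by positivity)
    have hg2 : (2 : ℝ) ≤ g := by exact_mod_cast hg
    obtain ⟨κ, hκ⟩ : ∃ κ : ℝ, κ = 4 * g + 5 + 2 * e * (2 * g + 1) / τ := ⟨_, rfl⟩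
    have h0 : 0 < 2 * e * (2 * g + 1) / τ := by positivity
    have hκ4 : 4 * g + 4 < κ := by linarith
    have hs : e * (expo g κ / (2 * g)) + τ / 2 < τ := by
      have hD : 0 < κ - 4 * g - 2 := by linarith
      have h1 : expo g κ ≤ 2 * g * (2 * g + 1) / (κ - 4 * g - 2) := by
        unfold expo
        exact (min_le_right _ _).trans (min_le_left _ _)
      have h2 : expo g κ / (2 * g) ≤ (2 * g + 1) / (κ - 4 * g - 2) := by
        rw [div_le_iff₀ (by positivity)]
        refine h1.trans (le_of_eq ?_)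
        ring
      have h3 : e * ((2 * g + 1) / (κ - 4 * g - 2)) < τ / 2 := by
        rw [← mul_div_assoc, div_lt_iff₀ hD]
        have h4 : τ / 2 * (2 * e * (2 * g + 1) / τ) = e * (2 * g + 1) := by field_simp
        have h5 : 2 * e * (2 * g + 1) / τ < κ - 4 * g - 2 := by linarith
        have h6 := mul_lt_mul_of_pos_left h5 (by positivity : 0 < τ / 2)
        linarith
      have h7 := mul_le_mul_of_nonneg_left h2 (by linarith : 0 ≤ e)
      linarith
    exact ⟨κ, τ / 2, by linarith, fun f hf G hG K _ _ c hc => combine hε hden _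
      ((one f hf G e hG K g n κ c (τ / 2) τ hg hn hc (by linarith) hτ1 hκ4).2 hs)⟩

end Pool.Agent.Results.MP_ca2859_nt.AliquotSums
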