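import Pool.Agent.Run7.h802.FH.Disc
import Pool.Agent.Run7.h802.FH.ClsPiece
import Pool.Agent.Run7.h802.FH.Pieces2

/-! The discriminant bound `Δ_C ≤ N_C ^ (2 g + 1 + ε)` for almost all hyperelliptic curves over the
rationals.
A project led by helper802; pieces by helper771, helper799, helper321, helper351, helper580, and the
theorem on radicals of helper742 (and, from an earlier project, by helper115, helper216, helper468,
helper590, helper633, helper796, helper882). -/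

set_option autoImplicit false

namespace Pool.Agent.Results.MP_ca2859_nt.AlmostAllCurves

open MvPolynomial

/-- The form `∑ a_k z^(D - k) x^k`, where `z = X 0` and `x = X 1`. -/
noncomputable def binaryForm {R : Type} [CommRing R] {D : ℕ} (a : Fin (D + 1) → R) :
    MvPolynomial (Fin 2) R :=
  ∑ k, C (a k) * (X 0 ^ (D - (k : ℕ)) * X 1 ^ (k : ℕ))

/-- `(x, y)`, `x = (x_0, x_1)`, is a singular zero of the equation `y² + q(x) y = p(x)` of a curve in
the weighted projective plane, where `q` and `p` are the forms of degree `g + 1` and `2 g + 2` with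
the given coefficients. -/
def IsSingularPoint {R : Type} [CommRing R] {g : ℕ} (q : Fin (g + 2) → R)
    (p : Fin (2 * g + 3) → R) (x : Fin 2 → R) (y : R) : Prop :=
  y ^ 2 + eval x (binaryForm q) * y = eval x (binaryForm p) ∧
    2 * y + eval x (binaryForm q) = 0 ∧
    ∀ i, eval x (pderiv i (binaryForm q)) * y = eval x (pderiv i (binaryForm p))

/-- The curve `y² + q(x) y = p(x)` over the rationals is smooth. -/
def IsSmooth {g : ℕ} (q : Fin (g + 2) → ℤ) (p : Fin (2 * g + 3) → ℤ) : Prop :=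
  ∀ (k : Type) [Field k] [CharZero k] (x : Fin 2 → k) (y : k), x ≠ 0 →
    ¬ IsSingularPoint (fun i => ((q i : ℤ) : k)) (fun j => ((p j : ℤ) : k)) x y

/-- The curve `y² + q(x) y = p(x)` modulo `l` is smooth. -/
def HasGoodReduction {g : ℕ} (q : Fin (g + 2) → ℤ) (p : Fin (2 * g + 3) → ℤ) (l : ℕ) : Prop :=
  ∀ (k : Type) [Field k] [CharP k l] (x : Fin 2 → k) (y : k), x ≠ 0 →
    ¬ IsSingularPoint (fun i => ((q i : ℤ) : k)) (fun j => ((p j : ℤ) : k)) x y

/-- The curve `y² + q(x) y = p(x)` modulo `l` has exactly one singular point over the algebraic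
closure; it is a rational point `(1, x_1, y)`, and it is an ordinary double point: the determinant of
the second partial derivatives with respect to `x_1` and `y` is not zero. -/
def HasOneNode {g : ℕ} (q : Fin (g + 2) → ℤ) (p : Fin (2 * g + 3) → ℤ) (l : ℕ) : Prop :=
  ∃ (x : Fin 2 → ℤ) (y : ℤ), x 0 = 1 ∧
    (l : ℤ) ∣ y ^ 2 + eval x (binaryForm q) * y - eval x (binaryForm p) ∧
    (l : ℤ) ∣ 2 * y + eval x (binaryForm q) ∧
    (l : ℤ) ∣ eval x (pderiv 1 (binaryForm q)) * y - eval x (pderiv 1 (binaryForm p)) ∧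
    ¬ (l : ℤ) ∣ 2 * (eval x (pderiv 1 (pderiv 1 (binaryForm q))) * y -
      eval x (pderiv 1 (pderiv 1 (binaryForm p)))) - eval x (pderiv 1 (binaryForm q)) ^ 2 ∧
    ∀ (k : Type) [Field k] [CharP k l] (x' : Fin 2 → k) (y' : k), x' ≠ 0 →
      IsSingularPoint (fun i => ((q i : ℤ) : k)) (fun j => ((p j : ℤ) : k)) x' y' →
        x' 1 = x' 0 * ((x 1 : ℤ) : k) ∧ y' = x' 0 ^ (g + 1) * ((y : ℤ) : k)

/-- The curve over the integers with the equation `y² + q(x) y = p(x)` is smooth over the rationals,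
and modulo each prime it is smooth or has one ordinary double point. -/
def IsSemistable {g : ℕ} (q : Fin (g + 2) → ℤ) (p : Fin (2 * g + 3) → ℤ) : Prop :=
  IsSmooth q p ∧ ∀ l : ℕ, l.Prime → HasGoodReduction q p l ∨ HasOneNode q p l

/-- The product of the primes of bad reduction. For `IsSemistable q p` this is the number `N_C` of
the problem, and also `M_C`: the reduction of the Jacobian at such a prime is an extension of an
abelian variety of dimension `g - 1` by a torus of dimension one, so the exponent is one. -/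
noncomputable def conductor {g : ℕ} (q : Fin (g + 2) → ℤ) (p : Fin (2 * g + 3) → ℤ) : ℕ :=
  ∏ᶠ l ∈ {l : ℕ | l.Prime ∧ ¬ HasGoodReduction q p l}, l

/-- The coefficients of the form `F = q² + 4 p` of degree `2 g + 2`. -/
def bCoeff {g : ℕ} (q : Fin (g + 2) → ℤ) (p : Fin (2 * g + 3) → ℤ) (k : Fin (2 * g + 3)) : ℤ :=
  (∑ i : Fin (g + 2), ∑ j : Fin (g + 2), if (i : ℕ) + (j : ℕ) = (k : ℕ) then q i * q j else 0) +
    4 * p k

/-- The derivative with respect to `x` of the form `F = ∑ F_k x^k z^(D - k)`, at `z = 1`. -/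
noncomputable def derivX {D : ℕ} (F : Fin (D + 1) → ℤ) : Polynomial ℝ :=
  ∑ k : Fin (D + 1), Polynomial.C (((k : ℕ) : ℝ) * (F k : ℝ)) * Polynomial.X ^ ((k : ℕ) - 1)

/-- The derivative with respect to `z` of the form `F = ∑ F_k x^k z^(D - k)`, at `z = 1`. -/
noncomputable def derivZ {D : ℕ} (F : Fin (D + 1) → ℤ) : Polynomial ℝ :=
  ∑ k : Fin (D + 1), Polynomial.C (((D - (k : ℕ) : ℕ) : ℝ) * (F k : ℝ)) *
    Polynomial.X ^ (k : ℕ)

/-- The absolute value of the discriminant of the Weierstrass model `y² + q(x) y = p(x)`. The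
resultant of the two derivatives (forms of degree `D - 1`) of a form `F` of degree `D` is, up to the
sign, `D ^ (D - 2)` times the discriminant of `F`; here `D = 2 g + 2`, and the discriminant of the
model is `2 ^ (-4 g - 4)` times the discriminant of `F = q² + 4 p`. For `IsSemistable q p` the model is
minimal at every prime, and so this is the number `Δ_C` of the problem. -/
noncomputable def discriminant {g : ℕ} (q : Fin (g + 2) → ℤ) (p : Fin (2 * g + 3) → ℤ) : ℝ :=
  |Polynomial.resultant (derivX (bCoeff q p)) (derivZ (bCoeff q p)) (2 * g + 2 - 1)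
    (2 * g + 2 - 1)| / (((2 * g + 2 : ℕ) : ℝ) ^ (2 * g) * 2 ^ (4 * g + 4))

/-- The discriminant bound with the exponent `κ` and the constant `1`. -/
def DiscriminantBound {g : ℕ} (κ : ℝ) (q : Fin (g + 2) → ℤ) (p : Fin (2 * g + 3) → ℤ) : Prop :=
  discriminant q p ≤ (conductor q p : ℝ) ^ κ

/-- The form `z^(g + 1)`: the curves are `y² + y = p(x)` in affine coordinates. -/
def one (g : ℕ) (i : Fin (g + 2)) : ℤ := if (i : ℕ) = 0 then 1 else 0

open Pool.Agent.Run7.h802.FH in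
theorem bound_of {g : ℕ} (κ : ℝ) (q : Fin (g + 2) → ℤ) (p : Fin (2 * g + 3) → ℤ)
    (h : BdG (fun F => Real.log (discF F)) κ q p) : DiscriminantBound κ q p := by
  obtain ⟨hfin, h2⟩ := h
  have hc : conductor q p = ∏ l ∈ hfin.toFinset, l :=
    finprod_mem_eq_finite_toFinset_prod (fun l : ℕ => l) hfin
  have hc0 : (∏ l ∈ hfin.toFinset, l) ≠ 0 := Finset.prod_ne_zero_iff.2 fun l hl =>
    ((Set.Finite.mem_toFinset hfin).1 hl).1.ne_zero
  have h3 := h2 (∏ l ∈ hfin.toFinset, l) hc0 fun l hl hb =>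
    Finset.dvd_prod_of_mem (fun l => l) ((Set.Finite.mem_toFinset hfin).2 ⟨hl, hb⟩)
  have h4 : discriminant q p = discF (Fv q p) := rfl
  have hcr : (0 : ℝ) < ((∏ l ∈ hfin.toFinset, l : ℕ) : ℝ) := by
    exact_mod_cast Nat.pos_of_ne_zero hc0
  unfold DiscriminantBound
  rw [hc, h4]
  by_cases hpos : 0 < discF (Fv q p)
  · rw [Real.le_rpow_iff_log_le hpos hcr]
    exact h3
  · exact (not_lt.1 hpos).trans (by positivity)

/-- The discriminant bound for the hyperelliptic curves `y² + q(x) y = p(x)` of genus `g` over the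
rationals, with the exponent `2 g + 1 + ε` and the constant `1`:
(1) for each `q` it holds for all smooth curves with integral coefficients of `p` bounded by `H`, up
to `C * H ^ (2 g + 3 - η)` exceptions (of about `(2 H) ^ (2 g + 3)`);
(2) for all `ε₁ > 0` there is `B` such that for all `Q` divisible by all primes up to `B` and for each
curve `(q, p)` with good reduction at the primes dividing `Q`, a proportion at least `1 - ε₁` of the
curves `(q, p + Q b)` is semistable and satisfies the bound;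
(3) for `q = 1` a positive proportion of all `p` gives a semistable curve satisfying the bound. -/
theorem result (g : ℕ) (hg : 1 ≤ g) (ε : ℝ) (hε : 0 < ε) :
    (∀ q : Fin (g + 2) → ℤ, ∃ C η : ℝ, 0 < η ∧ ∀ H : ℕ, 1 ≤ H →
      (Nat.card {p : Fin (2 * g + 3) → ℤ // (∀ k, |p k| ≤ H) ∧ IsSmooth q p ∧
        ¬ DiscriminantBound (2 * (g : ℝ) + 1 + ε) q p} : ℝ) ≤
          C * (H : ℝ) ^ (2 * (g : ℝ) + 3 - η)) ∧
    (∀ ε₁ : ℝ, 0 < ε₁ → ∃ B : ℕ, ∀ Q : ℕ, 0 < Q → (∀ l : ℕ, l.Prime → l ≤ B → l ∣ Q) →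
      ∀ (q : Fin (g + 2) → ℤ) (p : Fin (2 * g + 3) → ℤ),
        (∀ l : ℕ, l.Prime → l ∣ Q → HasGoodReduction q p l) → ∃ H₀ : ℕ, ∀ H : ℕ, H₀ ≤ H →
          (1 - ε₁) * (2 * (H : ℝ) + 1) ^ (2 * g + 3) ≤
            (Nat.card {b : Fin (2 * g + 3) → ℤ // (∀ k, |b k| ≤ H) ∧
              IsSemistable q (fun k => p k + Q * b k) ∧
              DiscriminantBound (2 * (g : ℝ) + 1 + ε) q (fun k => p k + Q * b k)} : ℝ)) ∧
    ∃ δ : ℝ, 0 < δ ∧ ∃ H₀ : ℕ, ∀ H : ℕ, H₀ ≤ H →
      δ * (2 * (H : ℝ) + 1) ^ (2 * g + 3) ≤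
        (Nat.card {p : Fin (2 * g + 3) → ℤ // (∀ k, |p k| ≤ H) ∧ IsSemistable (one g) p ∧
          DiscriminantBound (2 * (g : ℝ) + 1 + ε) (one g) p} : ℝ) := by
  obtain ⟨C₀, hC₀⟩ := Pool.Agent.Run7.h802.FH.log_discF_le g
  have hκ : (0 : ℝ) ≤ 4 * (g : ℝ) + 2 := by positivity
  have hsl : (4 * (g : ℝ) + 2) / 2 + ε = 2 * (g : ℝ) + 1 + ε := by ring
  obtain ⟨q1, q2⟩ := Pool.Agent.Run7.h802.FH.hyp_gen Pool.Agent.Run7.h802.FH.allRes
    Pool.Agent.Run7.h802.FH.allRad2 Pool.Agent.Run7.h351.FH.t_NL Pool.Agent.Run7.h802.FH.allDen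
    g hg (fun F => Real.log (Pool.Agent.Run7.h802.FH.discF F)) _ C₀ hκ hC₀ ε hε
  have q3 := Pool.Agent.Run7.h802.FH.hyp_gen_pos Pool.Agent.Run7.h802.FH.allRes
    Pool.Agent.Run7.h802.FH.allRad2 Pool.Agent.Run7.h351.FH.t_NL Pool.Agent.Run7.h802.FH.allDen
    Pool.Agent.Run7.h802.FH.t_CLS g hg (fun F => Real.log (Pool.Agent.Run7.h802.FH.discF F)) _ C₀
    hκ hC₀ ε hε
  rw [hsl] at q1 q2 q3
  refine ⟨fun q => ?_, ?_, ?_⟩
  · obtain ⟨C, η, hη, hC⟩ := q1 q
    refine ⟨C, η, hη, fun H hH => (Pool.Agent.Run7.h802.FH.nat_mono H _ _ ?_).trans (hC H hH)⟩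
    intro a _ ha
    exact ⟨ha.1, fun hb => ha.2 (bound_of _ _ _ hb)⟩
  · intro ε₁ hε₁
    obtain ⟨B, hB⟩ := q2 ε₁ hε₁
    refine ⟨B, fun Q hQ hQB q p hp => ?_⟩
    obtain ⟨H₀, hH₀⟩ := hB Q hQ hQB q p hp
    refine ⟨H₀, fun H hH => (hH₀ H hH).trans
      (Pool.Agent.Run7.h802.FH.nat_mono H _ _ ?_)⟩
    intro b _ hb
    exact ⟨⟨hb.1, hb.2.1⟩, bound_of _ _ _ hb.2.2⟩
  · obtain ⟨δ, hδ, H₀, hH₀⟩ := q3
    refine ⟨δ, hδ, H₀, fun H hH => (hH₀ H hH).trans
      (Pool.Agent.Run7.h802.FH.nat_mono H _ _ ?_)⟩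
    intro b _ hb
    exact ⟨⟨hb.1, hb.2.1⟩, bound_of _ _ _ hb.2.2⟩

end Pool.Agent.Results.MP_ca2859_nt.AlmostAllCurves
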