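import Mathlib
import Pool.Agent.Run7.h742.SZ.Hy

/-!
# Szpiro's inequality for all forms over all number fields of bounded degree of the members of
# families of hyperelliptic curves over affine space, at almost all integral points

Let `C_x : y² = F_x(X)` be a family of hyperelliptic curves of genus `g ≥ 2` with `n ≥ 1` parameters:
the coefficients of `F` are forms of degree `N` in `x_0, …, x_n` with integral coefficients. Let
`J = I ^ (4 g + 2) / Δ ^ k = A / D` be an absolute invariant of the family (`I` is any invariant of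
degree `k` of the binary forms of degree `2 g + 2`, `Δ` the discriminant), whose poles have the weight
`ω > 0`: a hyperplane (not `x_0 = 0`) counts for `1`, an irreducible hypersurface of higher degree
for `2`. Let `κ > d N (4 g + 6) / ω`. For almost all integral points `x` of the affine space, in fact for
almost all rational points with any given set of denominators, `Δ_C ≤ M_C ^ (κ + β(g, d))` holds for ALL
hyperelliptic curves `C` over ALL number fields `K` of degree at most `d` that are isomorphic to `C_x`
over an algebraic closure of `K` (for example all quadratic twists), if `C_x` has genus `g`. One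
exceptional set serves for all `g`, `d`, all families of `n` parameters and all invariants.

The definitions of `Δ_C`, `M_C` (`discNorm`, `badNorm`), of the curves (`IsHyp`), their function
fields (`FunField`), the substitution `act` and the discriminant `discN` of a binary form are those
of `Pool/Agent/W318`; the local comparison of the discriminants of a curve and of its forms, and the
integrality of the absolute invariants at places of good reduction are those of
`Pool/Agent/N365/HY` (starting file `EveryOneParameterFamily`).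
-/

set_option autoImplicit false

namespace Pool.Agent.Results.MP_ca2859_nt.IntegralPointsAllForms

open NumberField
open Pool.Agent.W318 (IsHyp FunField act discN discNorm badNorm)

/-- the value of a polynomial in the coefficients `a_0, …, a_n` of a polynomial of degree `≤ n` -/
noncomputable def value {R : Type*} [CommRing R] (n : ℕ) (I : MvPolynomial (Fin (n + 1)) ℤ)
    (F : Polynomial R) : R :=
  MvPolynomial.aeval (fun i : Fin (n + 1) => F.coeff i) I

/-- `I` is an invariant of degree `k`, with integral coefficients, of the binary forms of degree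
`2 g + 2`; `act n a b c d F = (c x + d) ^ n F ((a x + b) / (c x + d))` -/
structure IsInvariant (g k : ℕ) (I : MvPolynomial (Fin (2 * g + 2 + 1)) ℤ) : Prop where
  hom : I.IsHomogeneous k
  inv : ∀ (a b c d : ℂ) (F : Polynomial ℂ), a * d - b * c = 1 → F.natDegree ≤ 2 * g + 2 →
    value (2 * g + 2) I (act (2 * g + 2) a b c d F) = value (2 * g + 2) I F

/-- `max |x_j|` -/
def H {n : ℕ} (x : Fin (n + 1) → ℤ) : ℕ := Finset.univ.sup fun j => (x j).natAbs

/-- the rational points of the affine space `𝔸^n = ℙ^n ∖ {x 0 = 0}` with denominator in `M` and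
with `H x ≤ B`: the point `(x 1 / x 0, …, x n / x 0)` is given by its coprime integer coordinates
with `x 0 > 0`, and `x 0` is its denominator. `M = {1}`: the integral points -/
def Points (n : ℕ) (M : Set ℕ) (B : ℕ) : Set (Fin (n + 1) → ℤ) :=
  {x | Finset.univ.gcd x = 1 ∧ 0 < x 0 ∧ (x 0).toNat ∈ M ∧ H x ≤ B}

/-- the member `F_x` at `x` of the family `F`, a polynomial in `X` whose coefficients are forms of
degree `N` in `x 0, …, x n`; the curve is `C_x : y² = F_x(X)` -/
noncomputable def member {n : ℕ} (F : Polynomial (MvPolynomial (Fin (n + 1)) ℤ))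
    (x : Fin (n + 1) → ℤ) : Polynomial ℚ :=
  (F.map (MvPolynomial.eval x)).map (Int.castRingHom ℚ)

/-- `A / D` is the absolute invariant `J = I ^ (4 g + 2) / Δ ^ k` of the family -/
def IsAbsoluteInvariant {n : ℕ} (g k : ℕ) (I : MvPolynomial (Fin (2 * g + 2 + 1)) ℤ)
    (F : Polynomial (MvPolynomial (Fin (n + 1)) ℤ)) (A D : MvPolynomial (Fin (n + 1)) ℤ) : Prop :=
  ∀ x : Fin (n + 1) → ℤ, IsHyp g (member F x) →
    ((MvPolynomial.eval x A : ℤ) : ℚ) * discN (2 * g + 2) (member F x) ^ k =
      ((MvPolynomial.eval x D : ℤ) : ℚ) * value (2 * g + 2) I (member F x) ^ (4 * g + 2)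

/-- `A`, `D` are forms of degree `E` in `x 0, …, x n`, so `A / D` is a rational function on `𝔸^n`,
and its poles contain the distinct hypersurfaces `P j = 0` of degree `k j`, irreducible over `ℚ`,
none of which is the hyperplane `x 0 = 0`: `P j` divides `D` and does not divide `A` -/
structure HasPoles {n q : ℕ} (E : ℕ) (A D : MvPolynomial (Fin (n + 1)) ℤ)
    (P : Fin q → MvPolynomial (Fin (n + 1)) ℤ) (k : Fin q → ℕ) : Prop where
  hA : A.IsHomogeneous E
  hD : D.IsHomogeneous E
  hP : ∀ j, (P j).IsHomogeneous (k j)
  irreducible : ∀ j, Irreducible (MvPolynomial.map (Int.castRingHom ℚ) (P j))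
  distinct : ∀ i j, i ≠ j → ¬ Associated (MvPolynomial.map (Int.castRingHom ℚ) (P i))
    (MvPolynomial.map (Int.castRingHom ℚ) (P j))
  affine : ∀ j, ¬ Associated (MvPolynomial.map (Int.castRingHom ℚ) (P j)) (MvPolynomial.X 0)
  dvd : ∀ j, MvPolynomial.map (Int.castRingHom ℚ) (P j) ∣ MvPolynomial.map (Int.castRingHom ℚ) D
  not_dvd : ∀ j,
    ¬ MvPolynomial.map (Int.castRingHom ℚ) (P j) ∣ MvPolynomial.map (Int.castRingHom ℚ) A

/-- the weight of the poles: a pole of degree `1` counts for `1`, a pole of degree at least `2`
counts for `2` -/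
def weight {q : ℕ} (k : Fin q → ℕ) : ℝ := ∑ j, ((min (k j) 2 : ℕ) : ℝ)

/-- the curves `y² = P` and `y² = Q` are isomorphic over an algebraic closure -/
def GeomIso {K : Type} [Field K] (P Q : Polynomial K) : Prop :=
  Nonempty (FunField (AlgebraicClosure K) (P.map (algebraMap K (AlgebraicClosure K))) 0
    ≃ₐ[AlgebraicClosure K]
    FunField (AlgebraicClosure K) (Q.map (algebraMap K (AlgebraicClosure K))) 0)

/-- the inequality `Δ_C ≤ M_C ^ κ` holds for all hyperelliptic curves `C : y² = P` over number
fields `K` of degree at most `d` that are geometrically isomorphic to `y² = Q` -/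
def SzpiroForms (g d κ : ℕ) (Q : Polynomial ℚ) : Prop :=
  ∀ (K : Type) [Field K] [NumberField K], Module.finrank ℚ K ≤ d → ∀ P : Polynomial K,
    IsHyp g P → GeomIso P (Q.map (algebraMap ℚ K)) → discNorm g P ≤ badNorm g P ^ κ

/-- the part of the exponent which comes from the forms of a given curve -/
def beta (g d : ℕ) : ℕ :=
  4 * g * (2 * d) + (2 * (2 * g + 1) * (1 + (2 + (2 * g + 2) * d) * (g + 1)) +
    (8 * g + 4) * (2 * d))

/-- the points `x` for which `C_x` has genus `g` and the inequality with the exponent `κ` fails for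
some form of `C_x` over a number field of degree at most `d` -/
def Failures {n : ℕ} (g d κ : ℕ) (F : Polynomial (MvPolynomial (Fin (n + 1)) ℤ)) :
    Set (Fin (n + 1) → ℤ) :=
  {x | x 0 ≠ 0 ∧ IsHyp g (member F x) ∧ ¬ SzpiroForms g d κ (member F x)}

/-- the proportion of the points of `Q` among the points with denominators in `M` of height at most
`B` is at most a negative power of `B`, uniformly in the set `M` -/
def PowerSaving (n : ℕ) (Q : Set (Fin (n + 1) → ℤ)) : Prop :=
  ∃ δ : ℝ, 0 < δ ∧ ∃ C : ℝ, 0 < C ∧ ∀ B : ℕ, 1 ≤ B → ∀ M : Set ℕ,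
    ((Points n M B ∩ Q).ncard : ℝ) ≤ C * (B : ℝ) ^ (-δ) * ((Points n M B).ncard : ℝ)

/-- **Szpiro's inequality for hyperelliptic curves at almost all integral points.** Let `n ≥ 1`.
There is one set `E₀` of relative density zero among the points with denominators in `M`, uniformly in
`M`, such that for all `g ≥ 2` and `d`, all families `F` of curves of genus `g` with `n` parameters whose
coefficients are forms of degree `N`, all absolute invariants `A / D = I ^ (4 g + 2) / Δ ^ k` of the
family, whose poles have the weight `ω`, and all `κ > d N (4 g + 6) / ω` the inequality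
`Δ_C ≤ M_C ^ (κ + β(g, d))` holds for all forms `C` of `C_x` over all number fields of degree at most
`d`:
(1) for all `x` for which `C_x` has genus `g`, outside a set which contains a power-saving proportion of
the points, uniformly in the set `M` of the denominators;
(2) for all these `x` outside `E₀` with `H x > T`, `T` depending on `F`, `A / D`, `d` and `κ`. -/
theorem result : ∀ n : ℕ, 1 ≤ n → ∃ E₀ : Set (Fin (n + 1) → ℤ),
      (∀ ε : ℝ, 0 < ε → ∃ B₀ : ℕ, ∀ B : ℕ, B₀ ≤ B → ∀ M : Set ℕ,
        ((Points n M B ∩ E₀).ncard : ℝ) ≤ ε * ((Points n M B).ncard : ℝ)) ∧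
      ∀ (g d N : ℕ), 2 ≤ g → ∀ (F : Polynomial (MvPolynomial (Fin (n + 1)) ℤ)),
        (∀ i, (F.coeff i).IsHomogeneous N) →
        ∀ (k : ℕ) (I : MvPolynomial (Fin (2 * g + 2 + 1)) ℤ), IsInvariant g k I →
        ∀ (E q : ℕ) (A D : MvPolynomial (Fin (n + 1)) ℤ), IsAbsoluteInvariant g k I F A D →
        ∀ (P : Fin q → MvPolynomial (Fin (n + 1)) ℤ) (e : Fin q → ℕ), HasPoles E A D P e →
        ∀ κ : ℕ, (d : ℝ) * (N * (4 * g + 6)) < κ * weight e →
          PowerSaving n (Failures g d (κ + beta g d) F) ∧
          ∃ T : ℕ, ∀ x : Fin (n + 1) → ℤ, x 0 ≠ 0 → x ∉ E₀ → T < H x →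
            IsHyp g (member F x) → SzpiroForms g d (κ + beta g d) (member F x) := by
  intro n hn
  obtain ⟨E₀, hE₀, hall⟩ := Run7.h742.SZ.hy_univ hn
  refine ⟨E₀, hE₀, fun g d N hg F hF k I hI E q A D hJ P e h κ hκ => ?_⟩
  have hI' : Pool.Agent.N365.HY.IsInvariant g k I := ⟨hI.hom, hI.inv⟩
  have h' : Run7.h742.SZ.Inv E A D P e :=
    ⟨h.hA, h.hD, ⟨h.hP, h.irreducible, h.distinct, h.affine⟩, h.dvd, h.not_dvd⟩
  exact ⟨Run7.h742.SZ.hy_ps hn hg hF hI' hJ h' hκ,
    hall q E g d N hg F hF k I hI' A D hJ P e h' κ hκ⟩

end Pool.Agent.Results.MP_ca2859_nt.IntegralPointsAllForms
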