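import Mathlib
import Pool.Agent.Y728.HY.Ext
import Pool.Agent.Run7.h720.Ratio

/-!
# Szpiro's inequality for hyperelliptic curves with short rational Weierstrass points

Let `K` be a number field, `g ≥ 2`, `m = 2 g - 1`, and let `Γ` be a finitely generated subgroup of the
multiplicative group of `K`. We consider the hyperelliptic curves of genus `g` all of whose Weierstrass
points are rational, `C : y² = d x (x - 1) (x - l_1) … (x - l_m)`, such that the `l_i` are quotients
`p_i / q_i` of short numbers (sums of `r` terms `c * γ` with `γ` in `Γ` and `c` of height at most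
`B * H(l_i) ^ δ`), and such that, outside a finite set `T` of primes, the order of contact of `l_i` with
`0`, `1` and `∞` is at most the order of `ρ_i ^ M * τ_i`, where `ρ_i` is short and has only simple zeros,
at primes at which the Weierstrass points of `C` collide. We prove Szpiro's inequality with the exponent
`4 g (2 g + 1) + ε` for all these curves (there is no exceptional set), for all twists `d`, and over all
extensions `L` of `K`; the cofactors `τ_i` are arbitrary.
-/

set_option autoImplicit false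

namespace Pool.Agent.Results.MP_ca2859_nt.ShortWeierstrassPoints

open Polynomial IsDedekindDomain NumberField Height
open Pool.Agent.W318 (discNorm badNorm)
open Pool.Agent.K1H83.VN

/-- The right hand side of `y² = d x (x - 1) (x - l_1) … (x - l_m)`. -/
noncomputable def curve {K : Type} [Field K] {m : ℕ} (d : K) (l : Fin m → K) : K[X] :=
  C d * (X * (X - 1) * ∏ i, (X - C (l i)))

/-- The norm `N(D_{L / K}) = |D_L| / |D_K| ^ [L : K]` of the relative discriminant. -/
noncomputable def relDisc (K L : Type) [Field K] [NumberField K] [Field L] [NumberField L]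
    [Algebra K L] : ℝ :=
  |(NumberField.discr L : ℝ)| / |(NumberField.discr K : ℝ)| ^ Module.finrank K L

variable {K : Type} [Field K] [NumberField K]

/-- `ord_v (z)` times the logarithm of the norm of the prime `v`. (Mathlib's absolute value at `v` of
`z` is the norm of `v` to the power `-ord_v (z)`.) -/
noncomputable def ord (v : HeightOneSpectrum (𝓞 K)) (z : K) : ℝ := -Real.log (FinitePlace.mk v z)

/-- The order of contact of `x` with `0`, `1` and `∞` at the prime `v`, times the logarithm of the norm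
of `v`: the order of the zero or pole of `x`, plus the order of the zero of `1 - x`. -/
noncomputable def contact (v : HeightOneSpectrum (𝓞 K)) (x : K) : ℝ :=
  |ord v x| + max 0 (ord v (1 - x))

/-- Two of the points `0, 1, ∞, l_1, …, l_m` have the same reduction at the prime `v`. -/
def Collide {m : ℕ} (v : HeightOneSpectrum (𝓞 K)) (l : Fin m → K) : Prop :=
  (∃ i, FinitePlace.mk v (l i) ≠ 1 ∨ FinitePlace.mk v (1 - l i) ≠ 1) ∨
    ∃ i k, i ≠ k ∧ FinitePlace.mk v (l i - l k) ≠ 1

open Classical in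
/-- `log N(v)` if two of the points `0, 1, ∞, l_1, …, l_m` have the same reduction at the prime `v`, and
zero otherwise. -/
noncomputable def localRad {m : ℕ} (v : HeightOneSpectrum (𝓞 K)) (l : Fin m → K) : ℝ :=
  if Collide v l then Real.log (Ideal.absNorm v.asIdeal : ℝ) else 0

/-- The norm of the part of `z` outside `T`: the product of `N(v) ^ ord_v(z)` over the primes `v`
outside `T`. -/
noncomputable def normOutside (T : Set (HeightOneSpectrum (𝓞 K))) (z : K) : ℝ :=
  Real.exp (∑ᶠ (v : HeightOneSpectrum (𝓞 K)) (_ : v ∉ T), ord v z)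

/-- `z` is a sum of `r` terms `c * γ` with `γ` in `Γ` and `c` of (multiplicative, relative) height at
most `R`. -/
def IsShort (Γ : Subgroup Kˣ) (r : ℕ) (R : ℝ) (z : K) : Prop :=
  ∃ (c : Fin r → K) (γ : Fin r → Kˣ), (∀ j, γ j ∈ Γ) ∧ (∀ j, mulHeight₁ (c j) ≤ R) ∧
    z = ∑ j, c j * (γ j : K)

/-- `x = p / q` is a quotient of short numbers `p` and `q`, different from `0` and `1`, and outside `T`
the order of contact of `x` with `0`, `1` and `∞` is at most the order of `ρ ^ M * τ`, where `ρ` and `τ`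
are integral outside `T` and `ρ` is short. -/
structure ShortPoint (T : Set (HeightOneSpectrum (𝓞 K))) (Γ : Subgroup Kˣ) (r M : ℕ) (R : ℝ)
    (x p q ρ τ : K) : Prop where
  ne_zero : x ≠ 0
  ne_one : x ≠ 1
  den_ne_zero : q ≠ 0
  eq_div : x = p / q
  rho_ne_zero : ρ ≠ 0
  tau_ne_zero : τ ≠ 0
  short_num : IsShort Γ r R p
  short_den : IsShort Γ r R q
  short_rho : IsShort Γ r R ρ
  integral_rho : ∀ v ∉ T, 0 ≤ ord v ρ
  integral_tau : ∀ v ∉ T, 0 ≤ ord v τ
  contact_le : ∀ v ∉ T, contact v x ≤ M * ord v ρ + ord v τ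

/-! ### Auxiliary lemmas -/

theorem curve_eq {K : Type} [Field K] {m : ℕ} (d : K) (l : Fin m → K) :
    curve d l = Pool.Agent.TH905.HS.pol d (Pool.Agent.Y728.HY.cfg l) := by
  unfold curve Pool.Agent.TH905.HS.pol Pool.Agent.Y728.HY.cfg
  rw [Fin.prod_univ_succ, Fin.prod_univ_succ]
  simp [mul_assoc]

/-- at the primes where two of the points collide, the configuration is in the boundary -/
theorem mem_bd {m : ℕ} {v : HeightOneSpectrum (𝓞 K)} {l : Fin m → K} (h : Collide v l) :
    v ∈ Pool.Agent.Y728.MN.bd (∅ : Set (HeightOneSpectrum (𝓞 K))) (Pool.Agent.Y728.HY.P3 K) l := by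
  by_contra hcon
  have hna : ∀ a b : K, Pool.Agent.H691R3.fv v (a - b) ≤
      max (Pool.Agent.H691R3.fv v a) (Pool.Agent.H691R3.fv v b) := by
    intro a b
    have := Pool.Agent.H691R3.fv_na v a (-b)
    rwa [map_neg_eq_map, ← sub_eq_add_neg] at this
  have hP : ∀ i j, ¬ Pool.Agent.Y728.MN.Nr v (Pool.Agent.Y728.HY.P3 K j)
      (Pool.Agent.Y728.MN.pt (l i)) := fun i j hN =>
    hcon ⟨Set.notMem_empty v, Or.inl ⟨i, j, hN⟩⟩
  have hQ : ∀ i k, i ≠ k → ¬ Pool.Agent.Y728.MN.Nr v (Pool.Agent.Y728.MN.pt (l i))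
      (Pool.Agent.Y728.MN.pt (l k)) := fun i k hik hN =>
    hcon ⟨Set.notMem_empty v, Or.inr ⟨i, k, hik, hN⟩⟩
  have h0 : ∀ i, 1 ≤ Pool.Agent.H691R3.fv v (l i) := by
    intro i
    by_contra hlt
    push Not at hlt
    refine hP i 0 ?_
    show Pool.Agent.H691R3.fv v ((0 : K) * 1 - 1 * l i) <
      max (Pool.Agent.H691R3.fv v 0) (Pool.Agent.H691R3.fv v 1) *
        max (Pool.Agent.H691R3.fv v (l i)) (Pool.Agent.H691R3.fv v 1)
    have e : (0 : K) * 1 - 1 * l i = -l i := by ring
    rw [e, map_neg_eq_map, map_zero, map_one, max_eq_right zero_le_one, one_mul]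
    exact hlt.trans_le (le_max_right _ _)
  have h1 : ∀ i, Pool.Agent.H691R3.fv v (l i) ≤ 1 := by
    intro i
    by_contra hlt
    push Not at hlt
    refine hP i 2 ?_
    show Pool.Agent.H691R3.fv v ((1 : K) * 1 - 0 * l i) <
      max (Pool.Agent.H691R3.fv v 1) (Pool.Agent.H691R3.fv v 0) *
        max (Pool.Agent.H691R3.fv v (l i)) (Pool.Agent.H691R3.fv v 1)
    have e : (1 : K) * 1 - 0 * l i = 1 := by ring
    rw [e, map_zero, map_one, max_eq_left zero_le_one, one_mul]
    exact hlt.trans_le (le_max_left _ _)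
  have h2 : ∀ i, Pool.Agent.H691R3.fv v (l i) = 1 := fun i => le_antisymm (h1 i) (h0 i)
  have h3 : ∀ i, Pool.Agent.H691R3.fv v (1 - l i) = 1 := by
    intro i
    have h4 := hna 1 (l i)
    rw [map_one, h2 i, max_self] at h4
    refine le_antisymm h4 ?_
    by_contra hlt
    push Not at hlt
    refine hP i 1 ?_
    show Pool.Agent.H691R3.fv v ((1 : K) * 1 - 1 * l i) <
      max (Pool.Agent.H691R3.fv v 1) (Pool.Agent.H691R3.fv v 1) *
        max (Pool.Agent.H691R3.fv v (l i)) (Pool.Agent.H691R3.fv v 1)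
    rw [map_one, h2 i, max_self, one_mul, mul_one, one_mul]
    exact hlt
  rcases h with ⟨i, h | h⟩ | ⟨i, k, hik, h⟩
  · exact h (h2 i)
  · exact h (h3 i)
  · have h4 := hna (l i) (l k)
    rw [h2 i, h2 k, max_self] at h4
    refine hQ i k hik ?_
    show Pool.Agent.H691R3.fv v (l i * 1 - 1 * l k) <
      max (Pool.Agent.H691R3.fv v (l i)) (Pool.Agent.H691R3.fv v 1) *
        max (Pool.Agent.H691R3.fv v (l k)) (Pool.Agent.H691R3.fv v 1)
    rw [map_one, h2 i, h2 k, max_self, one_mul, mul_one, one_mul]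
    exact lt_of_le_of_ne h4 h

/-- the zeros of `ρ` are counted by the boundary -/
theorem cnt_le {m : ℕ} {T : Set (HeightOneSpectrum (𝓞 K))} {l : Fin m → K}
    (hfin : (Pool.Agent.Y728.MN.bd (∅ : Set (HeightOneSpectrum (𝓞 K)))
      (Pool.Agent.Y728.HY.P3 K) l).Finite) {ρ : K} (hρ : ρ ≠ 0)
    (h : ∀ v ∉ T, ord v ρ ≤ localRad v l) :
    Pool.Agent.Run7.h720.cnt T ρ ≤ Pool.Agent.Y728.MN.nn (∅ : Set (HeightOneSpectrum (𝓞 K)))
      (Pool.Agent.Y728.HY.P3 K) l := by
  classical
  unfold Pool.Agent.Run7.h720.cnt Pool.Agent.Y728.MN.nn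
  refine finsum_le_finsum' ?_ (hfin.subset fun v hv => ?_) fun v => ?_
  · refine (Pool.Agent.Run7.h720.log_fv_support ρ hρ).subset fun v hv h => hv ?_
    have h2 : Real.log (Pool.Agent.W180.OP.fv v ρ) = 0 := h
    show ∑ᶠ (_ : v ∉ T), -Real.log (Pool.Agent.W180.OP.fv v ρ) = 0
    rw [h2, neg_zero]
    exact finsum_zero
  · by_contra hcon
    exact hv (if_neg hcon)
  · have hpos : 0 ≤ if v ∈ Pool.Agent.Y728.MN.bd (∅ : Set (HeightOneSpectrum (𝓞 K)))
        (Pool.Agent.Y728.HY.P3 K) l then Pool.Agent.H951R3.V.ell v else 0 := by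
      split_ifs
      · exact (Pool.Agent.H951R3.V.ell_pos v).le
      · exact le_rfl
    rw [finsum_eq_if]
    by_cases hv : v ∈ T
    · rw [if_neg (not_not.2 hv)]
      exact hpos
    · rw [if_pos hv]
      refine (h v hv).trans ?_
      unfold localRad
      split_ifs with h1 h2 h2
      · exact le_rfl
      · exact absurd (mem_bd h1) h2
      · exact (Pool.Agent.H951R3.V.ell_pos v).le
      · exact le_rfl

/-- **Szpiro's inequality for hyperelliptic curves with short rational Weierstrass points.** Let `K` be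
a number field, `g ≥ 2`, `m = 2 g - 1`, `T` a finite set of primes of `K`, `Γ` a finitely generated
subgroup of the multiplicative group of `K`, `r` and `M` natural numbers, `B` and `ε > 0` real numbers.
There are `δ > 0` and `c > 0` such that the following holds for all different numbers `l_1, …, l_m` in
`K ∖ {0, 1}` which are quotients `p_i / q_i` of short numbers, and all short `ρ_i` and all `τ_i` in `K`,
integral outside `T`, such that outside `T` the order of contact of `l_i` with `0`, `1` and `∞` is at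
most the order of `ρ_i ^ M * τ_i`, and `ρ_i` has at most simple zeros, at primes at which two of the
points `0, 1, ∞, l_1, …, l_m` collide: for all number fields `L` which contain `K` and all `d ∈ L ^ ×`,
the hyperelliptic curve `C : y² = d x (x - 1) (x - l_1) … (x - l_m)` over `L` satisfies
`Δ_C ≤ c ^ [L : K] N_T(τ) ^ ((4 g + 2 + ε) [L : K]) (N(D_{L / K}) M_C) ^ (4 g (2 g + 1) + ε)`,
where `N_T(τ)` is the norm of the part of `τ_1 ⋯ τ_m` outside `T`. In particular, if the `τ_i` are
units outside `T` and `L = K`, then `Δ_C ≤ c M_C ^ (4 g (2 g + 1) + ε)` for all twists. -/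
theorem result (K : Type) [Field K] [NumberField K] (g m : ℕ) (hg : 2 ≤ g) (hm : m + 1 = 2 * g)
    (T : Set (HeightOneSpectrum (𝓞 K))) (hT : T.Finite) (Γ : Subgroup Kˣ) (hΓ : Γ.FG) (r M : ℕ)
    (B ε : ℝ) (hε : 0 < ε) :
    ∃ δ c : ℝ, 0 < δ ∧ 0 < c ∧ ∀ l p q ρ τ : Fin m → K, Function.Injective l →
      (∀ i, ShortPoint T Γ r M (B * mulHeight₁ (l i) ^ δ) (l i) (p i) (q i) (ρ i) (τ i)) →
      (∀ i, ∀ v ∉ T, ord v (ρ i) ≤ localRad v l) →
      ∀ (L : Type) [Field L] [NumberField L] [Algebra K L] (d : L), d ≠ 0 →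
        (discNorm g (curve d fun i => algebraMap K L (l i)) : ℝ) ≤
          c ^ Module.finrank K L *
            (∏ i, normOutside T (τ i)) ^ ((4 * g + 2 + ε) * Module.finrank K L) *
            (relDisc K L * (badNorm g (curve d fun i => algebraMap K L (l i)) : ℝ)) ^
              (4 * g * (2 * g + 1) + ε) := by
  classical
  have hn : m + 2 = 2 * g + 1 := by omega
  have hm1 : 1 ≤ m := by omega
  obtain ⟨m', hm'⟩ : ∃ m' : ℝ, m' = (m : ℝ) := ⟨_, rfl⟩
  have hm'1 : 1 ≤ m' := by
    rw [hm']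
    exact_mod_cast hm1
  obtain ⟨N, hN⟩ : ∃ N : ℝ, N = ((m + 2 : ℕ) : ℝ) := ⟨_, rfl⟩
  have hN2 : N = 2 * g + 1 := by
    rw [hN]
    exact_mod_cast hn
  have hNm : N = m' + 2 := by
    rw [hN, hm']
    push_cast
    ring
  obtain ⟨e₂, he₂⟩ : ∃ e₂ : ℝ, e₂ = ε / m' := ⟨_, rfl⟩
  have he₂0 : 0 < e₂ := by
    rw [he₂]
    positivity
  have he₂m : e₂ * m' = ε := by
    rw [he₂]
    field_simp
  have he₂ε : e₂ ≤ ε := by
    rw [← he₂m]
    nlinarith
  have hD0 : 0 < 2 * N + e₂ := by
    rw [hNm]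
    linarith
  obtain ⟨δ, C, hδ, hmain⟩ := Pool.Agent.Run7.h720.ratio_abc K Γ hΓ T hT r M B
    (e₂ / (2 * N + e₂)) (by positivity)
  obtain ⟨D, hD⟩ : ∃ D : ℝ, D = (Module.finrank ℚ K : ℝ) * Real.log 2 := ⟨_, rfl⟩
  obtain ⟨E, hE⟩ : ∃ E : ℝ, E = (4 * g + N * N) * D + (2 * N + e₂) * (m' * D + m' * |C|) :=
    ⟨_, rfl⟩
  refine ⟨δ, Real.exp E, hδ, Real.exp_pos _, ?_⟩
  intro l p q ρ τ hinj hsh hρ L _ _ _ d hd
  have hl : ∀ i, l i ≠ 0 ∧ l i ≠ 1 := fun i => ⟨(hsh i).ne_zero, (hsh i).ne_one⟩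
  have hord : ∀ (v : HeightOneSpectrum (𝓞 K)) (z : K), 0 ≤ ord v z →
      Pool.Agent.W180.OP.fv v z ≤ 1 := by
    intro v z hv
    have h1 : ord v z = -Real.log (Pool.Agent.W180.OP.fv v z) := rfl
    rw [h1] at hv
    by_contra hcon
    push Not at hcon
    have := Real.log_pos hcon
    linarith
  have hf : ∀ i j, Pool.Agent.TH876.KR.form (Pool.Agent.Y728.HY.P3 K j)
      (Pool.Agent.Y728.MN.pt (l i)) ≠ 0 := fun i j =>
    (Pool.Agent.Y728.HY.P3_form (l i) j).2 ⟨fun _ => (hl i).1, fun _ => (hl i).2⟩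
  have hfin := Pool.Agent.Y728.MN.bd_fin (∅ : Set (HeightOneSpectrum (𝓞 K)))
    (Pool.Agent.Y728.HY.P3 K) hf hinj
  obtain ⟨n, hn'⟩ : ∃ n : ℝ, n = Pool.Agent.Y728.MN.nn (∅ : Set (HeightOneSpectrum (𝓞 K)))
      (Pool.Agent.Y728.HY.P3 K) l := ⟨_, rfl⟩
  -- the abc inequality for the points
  have habc : ∀ i, (1 - e₂ / (2 * N + e₂)) * logHeight₁ (l i) ≤
      n + Pool.Agent.Run7.h720.cnt T (τ i) + |C| := by
    intro i
    have hs := hsh i
    have hp0 : p i ≠ 0 := by
      intro h
      exact hs.ne_zero (by rw [hs.eq_div, h, zero_div])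
    have hpq : p i ≠ q i := by
      intro h
      exact hs.ne_one (by rw [hs.eq_div, h, div_self hs.den_ne_zero])
    have hsp := hs.short_num
    have hsq := hs.short_den
    have hsρ := hs.short_rho
    rw [hs.eq_div] at hsp hsq hsρ
    have key := hmain (p i) (q i) (ρ i) (τ i) hp0 hs.den_ne_zero hpq hs.rho_ne_zero
      hs.tau_ne_zero (fun v hv => hord v _ (hs.integral_rho v hv))
      (fun v hv => hord v _ (hs.integral_tau v hv)) hsp hsq hsρ (by
        intro v hv
        have h1 := hs.contact_le v hv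
        have h2 : (M : ℝ) * ord v (ρ i) + ord v (τ i) =
            -(M * Real.log (Pool.Agent.W180.OP.fv v (ρ i)) +
              Real.log (Pool.Agent.W180.OP.fv v (τ i))) := by
          have e1 : ord v (ρ i) = -Real.log (Pool.Agent.W180.OP.fv v (ρ i)) := rfl
          have e2 : ord v (τ i) = -Real.log (Pool.Agent.W180.OP.fv v (τ i)) := rfl
          rw [e1, e2]
          ring
        rw [h2] at h1
        refine le_trans (le_of_eq ?_) h1
        rw [← hs.eq_div]
        unfold contact Pool.Agent.Run7.h720.bo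
        have e3 : ord v (l i) = -Real.log (Pool.Agent.W180.OP.fv v (l i)) := rfl
        rw [e3, abs_neg]
        rfl)
    rw [← hs.eq_div] at key
    have h2 := cnt_le hfin hs.rho_ne_zero (hρ i)
    rw [← hn'] at h2
    have h3 := le_abs_self C
    linarith
  obtain ⟨H, hH⟩ : ∃ H : ℝ, H = ∑ i, logHeight₁ (l i) := ⟨_, rfl⟩
  obtain ⟨t, ht⟩ : ∃ t : ℝ, t = ∑ i, Pool.Agent.Run7.h720.cnt T (τ i) := ⟨_, rfl⟩
  have hsum : (1 - e₂ / (2 * N + e₂)) * H ≤ m' * n + t + m' * |C| := by
    have h1 : ∑ i, (1 - e₂ / (2 * N + e₂)) * logHeight₁ (l i) ≤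
        ∑ i : Fin m, (n + Pool.Agent.Run7.h720.cnt T (τ i) + |C|) :=
      Finset.sum_le_sum fun i _ => habc i
    rw [← Finset.mul_sum, ← hH, Finset.sum_add_distrib, Finset.sum_add_distrib, ← ht,
      Finset.sum_const, Finset.sum_const, Finset.card_univ, Fintype.card_fin, nsmul_eq_mul,
      nsmul_eq_mul, ← hm'] at h1
    exact h1
  have hsum2 : 2 * N * H ≤ (2 * N + e₂) * (m' * n + t + m' * |C|) := by
    have h1 := mul_le_mul_of_nonneg_left hsum hD0.le
    have e1 : (2 * N + e₂) * ((1 - e₂ / (2 * N + e₂)) * H) = 2 * N * H := by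
      field_simp
      ring
    rw [e1] at h1
    exact h1
  have ht0 : 0 ≤ t := by
    rw [ht]
    refine Finset.sum_nonneg fun i _ => ?_
    unfold Pool.Agent.Run7.h720.cnt
    refine finsum_nonneg fun v => finsum_nonneg fun hv => ?_
    exact (hsh i).integral_tau v hv
  -- the curve over the extension
  have hlL : ∀ i, algebraMap K L (l i) ≠ 0 ∧ algebraMap K L (l i) ≠ 1 := fun i =>
    ⟨fun h' => (hl i).1 ((map_eq_zero _).1 h'), fun h' => (hl i).2 ((map_eq_one_iff _
      (algebraMap K L).injective).1 h')⟩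
  have hinjL : Function.Injective fun i => algebraMap K L (l i) :=
    (algebraMap K L).injective.comp hinj
  have he := Pool.Agent.Y728.HY.cfg_inj hlL hinjL
  have hfd : FiniteDimensional K L := Module.Finite.of_restrictScalars_finite ℚ K L
  obtain ⟨k, hk⟩ : ∃ k : ℝ, k = (Module.finrank K L : ℝ) := ⟨_, rfl⟩
  have hk0 : 0 < k := by rw [hk]; exact_mod_cast Module.finrank_pos
  have hTW : (totalWeight L : ℝ) * Real.log 2 = k * D := by
    rw [NumberField.totalWeight_eq_finrank, ← Module.finrank_mul_finrank ℚ K L, hk, hD]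
    push_cast
    ring
  have h1 := Pool.Agent.Y728.HY.log_disc_up_lin hn (by omega : 1 ≤ g) he hd
  rw [Pool.Agent.Y728.HY.sum_cfg, ← hN, hTW] at h1
  have h2 := Pool.Agent.Y728.HY.bad_low hg hn hlL hinjL hd
  have h3 := Pool.Agent.Y728.HY.wt_two_le (L := L)
  rw [hTW] at h3
  have h4 := Pool.Agent.Y728.HY.nn_ext hl hinj L
  have hHL : ∑ i, logHeight₁ (algebraMap K L (l i)) = k * H := by
    rw [hH, Finset.mul_sum, hk]
    exact Finset.sum_congr rfl fun i _ => Pool.Agent.Y729.AE.ht_ext (l i)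
  rw [hHL] at h1
  rw [curve_eq]
  obtain ⟨b, hb⟩ : ∃ b : ℝ, b = Real.log (badNorm g (Pool.Agent.TH905.HS.pol d
    (Pool.Agent.Y728.HY.cfg fun i => algebraMap K L (l i)))) := ⟨_, rfl⟩
  obtain ⟨lK, hlK⟩ : ∃ lK : ℝ, lK = Real.log |(discr K : ℝ)| := ⟨_, rfl⟩
  obtain ⟨lL, hlL'⟩ : ∃ lL : ℝ, lL = Real.log |(discr L : ℝ)| := ⟨_, rfl⟩
  rw [← hb] at h1 h2
  rw [← hk, ← hn', ← hlK, ← hlL'] at h4
  -- the relative discriminant
  have h5 : k * lK ≤ lL := by
    have h6 := Pool.Agent.Y729.RV.base_change (k := K) (L := L) ∅ ∅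
      (fun v hv => absurd hv (Finset.notMem_empty v))
    rw [Finset.sum_empty, Finset.sum_empty, add_zero, add_zero, ← hk, ← hlK, ← hlL'] at h6
    exact h6
  obtain ⟨s, hs⟩ : ∃ s : ℝ, s = lL - k * lK := ⟨_, rfl⟩
  have hs0 : 0 ≤ s := by
    rw [hs]
    linarith
  have h6 : k * n ≤ s + b + k * D := by
    have e1 : k * (lK + n) = k * lK + k * n := by ring
    rw [e1] at h4
    rw [hs]
    linarith
  have h7 : 2 * N * (k * H) ≤ (2 * N + e₂) * (m' * (s + b + k * D) + k * t + k * (m' * |C|)) := by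
    have h8 := mul_le_mul_of_nonneg_left hsum2 hk0.le
    have e1 : k * (2 * N * H) = 2 * N * (k * H) := by ring
    have e2 : k * ((2 * N + e₂) * (m' * n + t + m' * |C|)) =
        (2 * N + e₂) * (m' * (k * n) + k * t + k * (m' * |C|)) := by ring
    rw [e1, e2] at h8
    refine h8.trans (mul_le_mul_of_nonneg_left ?_ hD0.le)
    have h9 := mul_le_mul_of_nonneg_left h6 (by linarith : (0 : ℝ) ≤ m')
    linarith
  have h8 : Real.log (discNorm g (Pool.Agent.TH905.HS.pol d
      (Pool.Agent.Y728.HY.cfg fun i => algebraMap K L (l i)))) ≤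
      k * E + (4 * g + 2 + ε) * k * t + (4 * g * (2 * g + 1) + ε) * (s + b) := by
    have e1 : k * E + (4 * g + 2 + ε) * k * t + (4 * g * (2 * g + 1) + ε) * (s + b) =
        2 * N * b + (2 * N + e₂) * (m' * (s + b + k * D) + k * t + k * (m' * |C|)) +
          (4 * g + N * N) * (k * D) + 2 * N * s + (ε - e₂) * (k * t) := by
      have hg2 : (g : ℝ) = (m' + 1) / 2 := by
        have : N = 2 * g + 1 := hN2
        linarith
      rw [hE, ← he₂m, hg2, hNm]
      ring
    have h9 : 0 ≤ 2 * N * s := by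
      rw [hNm]
      positivity
    have h10 : 0 ≤ (ε - e₂) * (k * t) :=
      mul_nonneg (by linarith) (mul_nonneg hk0.le ht0)
    rw [e1]
    linarith
  have hb0 := Pool.Agent.Y728.HY.badNorm_pos hn hd he
  have hd0 := Pool.Agent.Y728.HY.discNorm_pos hn hd he
  have hK0 : (0 : ℝ) < |(discr K : ℝ)| := abs_pos.2 (by exact_mod_cast discr_ne_zero K)
  have hL0 : (0 : ℝ) < |(discr L : ℝ)| := abs_pos.2 (by exact_mod_cast discr_ne_zero L)
  have hR0 : 0 < relDisc K L := by
    unfold relDisc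
    positivity
  have hP : ∏ i, normOutside T (τ i) = Real.exp t := by
    rw [ht, Real.exp_sum]
    rfl
  rw [hP, ← Real.log_le_log_iff hd0 (by positivity), Real.log_mul (by positivity) (by positivity),
    Real.log_mul (by positivity) (by positivity), Real.log_pow, Real.log_exp, ← Real.exp_mul,
    Real.log_exp, Real.log_rpow (by positivity), Real.log_mul (by positivity) hb0.ne', ← hb]
  have hR : Real.log (relDisc K L) = s := by
    unfold relDisc
    rw [Real.log_div hL0.ne' (by positivity), Real.log_pow, hs, hlL', hlK, hk]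
  rw [hR, ← hk]
  refine h8.trans (le_of_eq ?_)
  ring

end Pool.Agent.Results.MP_ca2859_nt.ShortWeierstrassPoints
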